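import Mathlib
import Pool.Agent.Helper78_ACIT.Circuit
import Pool.Agent.Helper78_ACIT.Prime
import Pool.Agent.Helper99_RS.Fin
import Pool.Agent.Helper82_PX.All
import Pool.Agent.Helper82_PX.HubG

set_option autoImplicit false

/-!
# `MP_b2b50d_lc`: polynomial-size hitting sets for sums of `k` products of polynomials with bounded
interaction

For all fixed `k` and `c` the generator `x_i = ∑ j < t, z_j ∏ l < n, l ≠ i, (w_j - l)` (`i < n`) with
a constant number `t` of blocks hits all nonzero sums of `k` products of (any number of) polynomials `f`,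
of any degree, in which every variable interacts with at most `c` variables (`∂f / ∂x_i` contains at
most `c` variables for all `i`), over fields of characteristic zero.  Such polynomials are for example
the sums of univariate polynomials (depth-4 circuits with powering gates at the bottom, top fan-in
`k`), the sums `h_1 + h_2 + ...` of polynomials in disjoint sets of `c` variables, the sums
`∑ i, h_i(x_i, x_(i+1), ..., x_(i+b))`, or the sums over the edges of a graph of bounded degree of
polynomials in the two endpoints; every factor has its own graph.  In addition all these polynomials may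
depend in an arbitrary way on `c` variables which are the same in all factors (the set `G`).  More
generally the generator hits all nonzero polynomials `C(T_1, ..., T_m)` with an arbitrary polynomial `C`
and clusters `T_i = f_1 ... f_N (a_1 / b_1 + ... + a_M / b_M)` of such polynomials `f_v` (`N` and `M` are
arbitrary, `b_t` is a product of `c` such polynomials, all monomials of `a_t` have at most `c` variables
outside of `G`; `M = 1`, `a_1 = b_1 = 1`: a product), at most `k` of which are algebraically independent.
Hence these circuits, and all circuits of any shape which compute a divisor of a product of such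
polynomials, have a deterministic black-box identity test with polynomially many evaluations modulo small
primes.
-/

namespace Pool.Agent.Results.MP_b2b50d_lc.BoundedInteraction

open MvPolynomial Pool.Agent.Helper78_ACIT Pool.Agent.UO

/-- `f` is a polynomial in `x_0, ..., x_(n-1)`, of any degree, in which, apart from the variables of `G`,
every variable outside of `G` interacts with at most `c` variables: `∂f / ∂x_i` contains at most `c`
variables outside of `G` for all `i` outside of `G`. -/
def IsForm (E : Type) [Field E] (c n : ℕ) (G : Finset ℕ) (f : MvPolynomial ℕ E) : Prop :=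
  f.vars ⊆ Finset.range n ∧ ∀ i ∉ G, ((pderiv i f).vars \ G).card ≤ c

/-- `a` is a polynomial in `x_0, ..., x_(n-1)` all of whose monomials have at most `c` variables outside of
`G`. -/
def IsSmall (E : Type) [Field E] (c n : ℕ) (G : Finset ℕ) (a : MvPolynomial ℕ E) : Prop :=
  a.vars ⊆ Finset.range n ∧ ∀ s ∈ a.support, (s.support \ G).card ≤ c

/-- A cluster `T = f_1 ... f_N (a_1 / b_1 + ... + a_M / b_M)` with arbitrary `N`, `M`, polynomials `f_v`
of the form `IsForm E c n G`, products `b_t = b_t1 ... b_tc` of nonzero polynomials of this form, and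
polynomials `a_t` all of whose monomials have at most `c` variables outside of `G` (the equation is
multiplied by `b_1 ... b_M`). -/
def IsCluster (E : Type) [Field E] (c n : ℕ) (G : Finset ℕ) (T : MvPolynomial ℕ E) : Prop :=
  ∃ (N M : ℕ) (f : Fin N → MvPolynomial ℕ E) (a : Fin M → MvPolynomial ℕ E)
    (b : Fin M → Fin c → MvPolynomial ℕ E),
    (∀ v, IsForm E c n G (f v)) ∧ (∀ t, IsSmall E c n G (a t)) ∧
    (∀ t l, IsForm E c n G (b t l) ∧ b t l ≠ 0) ∧
    T * ∏ t, ∏ l, b t l = (∏ v, f v) * ∑ t, a t * ∏ t' ∈ Finset.univ.erase t, ∏ l, b t' l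

/-- `F = C(T_1, ..., T_m)` with an arbitrary polynomial `C` and clusters `T_i` with a common set `G` of
at most `c` variables; every algebraically independent subfamily of the `T_i` has at most `k` members
(for example `m ≤ k`). -/
def IsComp (E : Type) [Field E] (k c n : ℕ) (F : MvPolynomial ℕ E) : Prop :=
  ∃ G : Finset ℕ, G.card ≤ c ∧
    ∃ (m : ℕ) (T : Fin m → MvPolynomial ℕ E) (C : MvPolynomial (Fin m) E),
      (∀ i, IsCluster E c n G (T i)) ∧
      (∀ s : Finset (Fin m), AlgebraicIndependent E (fun i : s => T i) → s.card ≤ k) ∧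
      F = aeval T C

/-- The value of the circuit `G` in `ZMod p` at the point `x_i = ∑ j, z_j ∏ l < n, l ≠ i, (w_j - l)`
(`i < n`; `x_i = 0` for `i ≥ n`). -/
def testValue (n p N t : ℕ) (w z : Fin t → Fin N) (G : List Gate) : ZMod p :=
  out (point n (fun j => ((w j : ℕ) : ZMod p)) (fun j => ((z j : ℕ) : ZMod p))) G

/-- For all `k` and `c` there is a number `t0` such that for all fields `E` of characteristic zero,
all `n` and all `t ≥ t0`:
(1) For all `F_1, ..., F_r` of the class `IsComp E k c n` with nonzero product there are `w`, `z` in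
`E ^ t` such that `F_1 ... F_r` does not vanish at the point
`x_i = ∑ j < t, z_j ∏ l < n, l ≠ i, (w_j - l)`.
(2) Let the polynomial of the well-formed circuit `G` be zero, or let it have degree at most `D` and
length at most `2 ^ b` and divide a nonzero product of polynomials of the class.  Then `G` computes
zero if and only if its values at the points `x_i = ∑ j < t, z_j ∏ l < n, l ≠ i, (w_j - l)`, with
`w_j` and `z_j` in `{0, ..., n D}`, are zero modulo all primes
`p ≤ 64 (b + D (t + n ^ 2 (D + 1)) + 1) ^ 2`.
(3) Sums of `k` products of polynomials of the form `IsForm E c n G`, `|G| ≤ c`, belong to the class.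
(4) The sums `∑ i < k, ∑ u < M_i, a_iu ∏ v ∉ V_iu, f_iv` with `f_iv` of the form `IsForm E c n G`,
`|G| ≤ c`, at most `c` elements in `V_iu`, and polynomials `a_iu` of the form `IsSmall E c n G`, belong to
the class. -/
theorem result (k c : ℕ) : ∃ t0 : ℕ, ∀ (E : Type) [Field E] [CharZero E] (n t : ℕ), t0 ≤ t →
    (∀ S : List (MvPolynomial ℕ E), (∀ F ∈ S, IsComp E k c n F) → S.prod ≠ 0 →
      ∃ w z : Fin t → E, eval (point n w z) S.prod ≠ 0) ∧
    (∀ (D b : ℕ) (G : List Gate), WellFormed G →
      (poly G = 0 ∨ ((poly G).totalDegree ≤ D ∧ length (poly G) ≤ 2 ^ b ∧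
        ∃ S : List (MvPolynomial ℕ E), (∀ F ∈ S, IsComp E k c n F) ∧ S.prod ≠ 0 ∧
          map (Int.castRingHom E) (poly G) ∣ S.prod)) →
      (G ∈ ACIT ↔ ∀ p, p.Prime → p ≤ 64 * (b + D * (t + n * (n * (D + 1))) + 1) ^ 2 →
        ∀ w z : Fin t → Fin (n * D + 1), testValue n p (n * D + 1) t w z G = 0)) ∧
    (∀ (G : Finset ℕ) (e : Fin k → E) (N : Fin k → ℕ)
        (f : ∀ i : Fin k, Fin (N i) → MvPolynomial ℕ E), G.card ≤ c →
      (∀ i v, IsForm E c n G (f i v)) →
      IsComp E k c n (∑ i, C (e i) * ∏ v, f i v)) ∧
    ∀ (G : Finset ℕ) (N M : Fin k → ℕ) (f : ∀ i : Fin k, Fin (N i) → MvPolynomial ℕ E)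
        (V : ∀ i : Fin k, Fin (M i) → Finset (Fin (N i)))
        (a : ∀ i : Fin k, Fin (M i) → MvPolynomial ℕ E), G.card ≤ c →
        (∀ i v, IsForm E c n G (f i v)) →
        (∀ i u, (V i u).card ≤ c) →
        (∀ i u, IsSmall E c n G (a i u)) →
        IsComp E k c n (∑ i, ∑ u, a i u * ∏ v ∈ (V i u)ᶜ, f i v) := by
  obtain ⟨t0, ht0⟩ := PX.H82.hitG PX.aThx k c
  refine ⟨t0, fun E _ _ n t ht => ?_⟩
  have h1 : ∀ S : List (MvPolynomial ℕ E), (∀ F ∈ S, IsComp E k c n F) → S.prod ≠ 0 →
      ∃ w z : Fin t → E, eval (point n w z) S.prod ≠ 0 := fun S hS hne =>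
    RS.H82J.prd n t (IsComp E k c n) (fun F hF hF0 => ht0 E n t ht F hF hF0) S hS hne
  refine ⟨h1, ?_, fun G e N f hG hf => ⟨G, hG, PX.H82.pcG_sum k c n G e N f hf⟩,
    fun G N M f V a hG hf hV ha => ⟨G, hG, PX.H82.pcG_near k c n G N M f V a hf hV ha⟩⟩
  intro D b G hG hpoly
  exact RS.H99.test E n t (IsComp E k c n) h1 D b G hG hpoly

end Pool.Agent.Results.MP_b2b50d_lc.BoundedInteraction
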