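import Mathlib
import Pool.Agent.Helper78_ACIT.Circuit
import Pool.Agent.Helper12_UO.Defs
import Pool.Agent.Helper99_CPT.All1

set_option autoImplicit false

/-!
# `MP_b2b50d_lc`: black-box identity test, exponential only in the number of multiplications

A nonzero polynomial in `n` variables which can be computed with `s` multiplications (additions and
multiplications with scalars are free; its degree may be `2 ^ s`) does not vanish at one of the points
`c ∈ ℕ ^ n` with `∏ max(1, c_i) ≤ 8 ^ s`.  So circuits with `g` gates, `s` of them products, can be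
tested with `2 ^ O(s)` times a polynomial number of evaluations, at explicit points.

Proof of the theorem.  Let `(a_1, ..., a_n)` be the greedy point: `a_1` is the least number for which
`F(a_1, x_2, ..., x_n) ≠ 0`, and so on; let all `a_i ≥ 1`.  The rational functions `L_i = (∂_i F) / F`
are quotients of elements of a space `W ∋ F` of dimension `1 + n + 3 s` (Baur and Strassen), and there
are at most `8 ^ s` rational functions which are independent over `E(L_1, ..., L_n)`, because the
Hilbert function of `W` is at most `8 ^ s` times the one of the space of affine functions.  On the other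
hand there are `a_1 ⋯ a_n` such functions: let `κ = E(L_2, ..., L_n)`, and take a Puiseux expansion at
`x_1 = c`, `c < a_1`, with `x_1 = c + T ^ M`.  If `L_1` had no pole of order at least `M`, then the
derivations `θ = T d/dT` and `δ_i = ∂/∂L_i` (coefficientwise), applied to `F` and to
`h = ∑ i ≥ 2, L_i x_i`, would show that `h` and the `x_i` have no pole and `F` neither a pole nor a
zero, although `x_1 - c` divides `F`.
-/

namespace Pool.Agent.Results.MP_b2b50d_lc.FewMultiplications

open MvPolynomial Pool.Agent.Helper78_ACIT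

/-- The linear combinations over `E` of `1`, the variables and the entries of `l`. -/
noncomputable def combinations (E : Type) [Field E] {n : ℕ} (l : List (MvPolynomial (Fin n) E)) :
    Submodule E (MvPolynomial (Fin n) E) :=
  Submodule.span E ({1} ∪ Set.range X ∪ {x | x ∈ l})

/-- The list `l` is a computation, the last product first: each entry is the product of two linear
combinations of `1`, the variables and the entries behind it. -/
def IsComputation (E : Type) [Field E] {n : ℕ} : List (MvPolynomial (Fin n) E) → Prop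
  | [] => True
  | g :: l => IsComputation E l ∧ ∃ a ∈ combinations E l, ∃ b ∈ combinations E l, g = a * b

/-- `F ∈ E[x_0, ..., x_(n-1)]` can be computed with at most `s` multiplications (additions and
multiplications with elements of `E` are free). -/
def IsComputed (E : Type) [Field E] (n s : ℕ) (F : MvPolynomial (Fin n) E) : Prop :=
  ∃ l : List (MvPolynomial (Fin n) E), l.length ≤ s ∧ IsComputation E l ∧ F ∈ combinations E l

/-- `F` is a limit of polynomials which can be computed with `s` multiplications: there is a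
polynomial `G` over `E[ε]` which is `F` for `ε = 0` and, as a polynomial over the field `E(ε)`, can be
computed with at most `s` multiplications.  (For example `F` itself, if `F` can be computed with `s`
multiplications.) -/
def IsLimit (E : Type) [Field E] (n s : ℕ) (F : MvPolynomial (Fin n) E) : Prop :=
  ∃ G : MvPolynomial (Fin n) (Polynomial E),
    map (Polynomial.evalRingHom 0) G = F ∧
      IsComputed (FractionRing (Polynomial E)) n s
        (map (algebraMap (Polynomial E) (FractionRing (Polynomial E))) G)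

/-- The point `x_i = ∑ j < r, t ^ (i (j + 1)) c_j`. -/
def point (A : Type) [CommRing A] {r : ℕ} (t : ℕ) (c : Fin r → ℕ) (i : ℕ) : A :=
  ∑ j : Fin r, (t : A) ^ (i * ((j : ℕ) + 1)) * (c j : A)

/-- The list of all `c ∈ ℕ ^ m` with `∏ max(1, c_i) ≤ K` (for `K ≥ 1`). -/
def seeds : (m : ℕ) → ℕ → List (Fin m → ℕ)
  | 0, _ => [fun i => i.elim0]
  | m + 1, K => (List.range (K + 1)).flatMap fun a =>
      (seeds m (K / max 1 a)).map fun c => (Fin.cons a c : Fin (m + 1) → ℕ)

/-- The list of all `(t, c)` with `t ≤ n (2 s + 1) ^ 2` and `c ∈ ℕ ^ (2 s + 1)`,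
`∏ max(1, c_j) ≤ 8 ^ s`. -/
def params (n s : ℕ) : List (ℕ × (Fin (2 * s + 1) → ℕ)) :=
  (List.range (n * (2 * s + 1) ^ 2 + 1)).flatMap fun t =>
    (seeds (2 * s + 1) (8 ^ s)).map fun c => (t, c)

/-- The curve of degree `N - 1`, `N` the length of `H`, which for `τ = j` is `(N - 1)!` times the point
with the `j`th parameters in `H`. -/
def curve {A : Type} [CommRing A] {r : ℕ} (H : List (ℕ × (Fin r → ℕ))) (τ : A) (i : ℕ) : A :=
  ∑ j : Fin H.length, ((H.length - 1).choose j : A) * ((∏ k ∈ Finset.range j, (τ - (k : A))) *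
    ∏ k ∈ Finset.Ico ((j : ℕ) + 1) H.length, ((k : A) - τ)) * point A (H.get j).1 (H.get j).2 i

/-- The polynomial over `E` in `x_0, ..., x_(n-1)` of the circuit `G`. -/
noncomputable def polyOver (E : Type) [Field E] (n : ℕ) (G : List Gate) : MvPolynomial (Fin n) E :=
  out (fun i => if h : i < n then X ⟨i, h⟩ else 0) G

/-- The gate is a product. -/
def isProduct : Gate → Bool
  | .mul _ _ => true
  | _ => false

/-- The sum of the absolute values of the coefficients. -/
noncomputable def length (f : MvPolynomial ℕ ℤ) : ℕ := ∑ d ∈ f.support, (f.coeff d).natAbs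

/-- The number of bits of the coordinates of the points. -/
def bits (n s : ℕ) : ℕ := (2 * s + 1) + n * (2 * s + 1) * (n + 2 * (2 * s + 1)) + 3 * s

/-- The value modulo `p` of the circuit `G` at the point with the parameters `t`, `c`; the variable
which occurs first in the gate number `i` gets the value `∑ j < r, t ^ (i (j + 1)) c_j`. -/
def testValue {r : ℕ} (p t : ℕ) (c : Fin r → ℕ) (G : List Gate) : ZMod p :=
  out (fun v => point (ZMod p) t c (G.idxOf (Gate.var v))) G

theorem isComputation_iff (E : Type) [Field E] {n : ℕ} (l : List (MvPolynomial (Fin n) E)) :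
    IsComputation E l ↔ BSH.Ch E (Set.range X) l := by
  induction l with
  | nil => exact Iff.rfl
  | cons g l ih =>
    change IsComputation E l ∧ _ ↔ BSH.Ch E (Set.range X) l ∧ _
    rw [ih]
    exact Iff.rfl

theorem isComputed_iff (E : Type) [Field E] (n s : ℕ) (F : MvPolynomial (Fin n) E) :
    IsComputed E n s F ↔ CPT.IsCheapF E n s F := by
  constructor
  · rintro ⟨l, h1, h2, h3⟩
    exact ⟨l, h1, (isComputation_iff E l).mp h2, h3⟩
  · rintro ⟨l, h1, h2, h3⟩
    exact ⟨l, h1, (isComputation_iff E l).mpr h2, h3⟩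

theorem isLimit_iff (E : Type) [Field E] (n s : ℕ) (F : MvPolynomial (Fin n) E) :
    IsLimit E n s F ↔ CPT.IsLim E n s F := by
  constructor
  · rintro ⟨G, h1, h2⟩
    exact ⟨G, h1, (isComputed_iff _ _ _ _).mp h2⟩
  · rintro ⟨G, h1, h2⟩
    exact ⟨G, h1, (isComputed_iff _ _ _ _).mpr h2⟩

theorem seeds_eq (m K : ℕ) : seeds m K = CPT.pts m K := by
  induction m generalizing K with
  | zero => rfl
  | succ m ih =>
    unfold seeds CPT.pts
    refine congrArg (fun f => List.flatMap f (List.range (K + 1))) ?_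
    funext a
    rw [ih]

theorem params_eq (n s : ℕ) : params n s = CPT.prs n s := by
  unfold params CPT.prs
  rw [seeds_eq]

theorem isProduct_eq : isProduct = BSH.isMul := by
  funext g
  cases g <;> rfl

/-- Let `E` be a field of characteristic zero.

(1) Let `F ≠ 0` be a limit of polynomials in `n` variables which can be computed with `s`
multiplications.  Then, for arbitrary injective sequences `θ_0, ..., θ_(n-1)` in `E`, it does not vanish
at the point with the coordinates `θ_i(c_i)` for some `c ∈ ℕ ^ n` with `∏ max(1, c_i) ≤ 8 ^ s` and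
`∑ c_i ≤ deg F`.

(2) Let the polynomial of a circuit `G` be zero, or let it divide over `E` a nonzero product of (any
number of) such limits, and let its degree be at most `D` and its length at most `2 ^ b`.  Then `G`
computes zero if and only if its values modulo all primes
`p ≤ 64 (b + D (N (D + N + 2) + bits n s) + 1) ^ 2` at the points `τ ≤ D (N - 1)` of the curve are zero.
The curve is explicit, has integer coefficients and degree `N - 1`, and
`N ≤ 3 (n (2 s + 1) ^ 2 + 1) 576 ^ s`.

(3) An arbitrary circuit with `g` gates, `s` of them products, computes zero if and only if its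
values modulo all primes `p ≤ 64 ((bits g s + g) 2 ^ s + 1) ^ 2` at the points with the parameters
`t ≤ g (2 s + 1) ^ 2` and `c ∈ ℕ ^ (2 s + 1)`, `∏ max(1, c_j) ≤ 8 ^ s`, are zero; these are at most
`(g + 1) ^ 26 2 ^ (12 s)` evaluations. -/
theorem result :
    (∀ (E : Type) [Field E] [CharZero E] (n s : ℕ),
      (∀ F : MvPolynomial (Fin n) E, F ≠ 0 → IsLimit E n s F →
        ∀ θ : Fin n → ℕ → E, (∀ i, Function.Injective (θ i)) →
          ∃ c : Fin n → ℕ, ∏ i, max 1 (c i) ≤ 8 ^ s ∧ ∑ i, c i ≤ F.totalDegree ∧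
            eval (fun i => θ i (c i)) F ≠ 0) ∧
      ∀ (D b : ℕ) (G : List Gate), WellFormed G → (∀ v, Gate.var v ∈ G → v < n) →
        (poly G = 0 ∨ ((poly G).totalDegree ≤ D ∧ length (poly G) ≤ 2 ^ b ∧
          ∃ L : List (MvPolynomial (Fin n) E), (∀ F ∈ L, IsLimit E n s F) ∧ L.prod ≠ 0 ∧
            polyOver E n G ∣ L.prod)) →
        (G ∈ ACIT ↔ ∀ p, p.Prime →
          p ≤ 64 * (b + D * ((params n s).length * (D + (params n s).length + 2) + bits n s) + 1) ^ 2 →
          ∀ τ ≤ D * ((params n s).length - 1),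
            out (fun i => curve (params n s) (τ : ZMod p) i) G = 0)) ∧
    (∀ n s : ℕ, (∀ (t : ℕ) (c : Fin (2 * s + 1) → ℕ), (t, c) ∈ params n s ↔
        t ≤ n * (2 * s + 1) ^ 2 ∧ ∏ j, max 1 (c j) ≤ 8 ^ s) ∧
      (params n s).length ≤ (n * (2 * s + 1) ^ 2 + 1) * (3 * 576 ^ s)) ∧
    ∀ (g s : ℕ) (G : List Gate), WellFormed G → G.length = g → G.countP isProduct = s →
      (G ∈ ACIT ↔ ∀ p, p.Prime → p ≤ 64 * ((bits g s + g) * 2 ^ s + 1) ^ 2 →
        ∀ t ≤ g * (2 * s + 1) ^ 2, ∀ c : Fin (2 * s + 1) → ℕ, ∏ j, max 1 (c j) ≤ 8 ^ s →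
          testValue p t c G = 0) ∧
      {q : ℕ × ℕ × (Fin (2 * s + 1) → ℕ) | q.1 ≤ 64 * ((bits g s + g) * 2 ^ s + 1) ^ 2 ∧
        q.2.1 ≤ g * (2 * s + 1) ^ 2 ∧ ∏ j, max 1 (q.2.2 j) ≤ 8 ^ s}.encard ≤
          (((g + 1) ^ 26 * 2 ^ (12 * s) : ℕ) : ℕ∞) := by
  refine ⟨fun E _ _ n s => ⟨?_, ?_⟩, ?_, ?_⟩
  · intro F hF hL θ hθ
    exact CPT.H99.caeRow E n s θ F hθ hF ((isLimit_iff _ _ _ _).mp hL)
  · intro D b G hG hv h
    rw [params_eq]
    refine CPT.H99.tsl E n s D b G hG hv ?_
    rcases h with h | ⟨ha, hb, L, hL, h0, hd⟩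
    · exact Or.inl h
    · exact Or.inr ⟨ha, hb, L, fun F hF => (isLimit_iff _ _ _ _).mp (hL F hF), h0, hd⟩
  · intro n s
    rw [params_eq]
    exact ⟨(CPT.H99.nmb n s).1, (CPT.H99.nmb n s).2.2⟩
  · rintro g s G hG rfl rfl
    rw [isProduct_eq]
    refine ⟨CPT.H99.tsa G hG, ?_⟩
    have hg : 1 ≤ G.length := List.length_pos_iff.mpr hG.1
    have hs : G.countP BSH.isMul ≤ G.length := List.countP_le_length
    have ht := CPT.H99.tot G.length (G.countP BSH.isMul) hg hs
    generalize G.length = g at *
    generalize G.countP BSH.isMul = s at *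
    obtain ⟨hf, hc⟩ := CPT.H97.cnt (2 * s + 1) (8 ^ s)
    set B := 64 * ((CPT.bits g s + g) * 2 ^ s + 1) ^ 2 with hB
    have e : {q : ℕ × ℕ × (Fin (2 * s + 1) → ℕ) | q.1 ≤ B ∧
        q.2.1 ≤ g * (2 * s + 1) ^ 2 ∧ ∏ j, max 1 (q.2.2 j) ≤ 8 ^ s} =
        (Set.Iic B) ×ˢ ((Set.Iic (g * (2 * s + 1) ^ 2)) ×ˢ
          {c : Fin (2 * s + 1) → ℕ | ∏ j, max 1 (c j) ≤ 8 ^ s}) := by
      ext q
      simp [Set.mem_prod]
    change Set.encard {q : ℕ × ℕ × (Fin (2 * s + 1) → ℕ) | q.1 ≤ B ∧
        q.2.1 ≤ g * (2 * s + 1) ^ 2 ∧ ∏ j, max 1 (q.2.2 j) ≤ 8 ^ s} ≤ _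
    rw [e]
    have hfin : ((Set.Iic B) ×ˢ ((Set.Iic (g * (2 * s + 1) ^ 2)) ×ˢ
          {c : Fin (2 * s + 1) → ℕ | ∏ j, max 1 (c j) ≤ 8 ^ s})).Finite :=
      (Set.finite_Iic _).prod ((Set.finite_Iic _).prod hf)
    rw [← hfin.cast_ncard_eq, Set.ncard_prod, Set.ncard_prod]
    have e1 : (Set.Iic B).ncard = B + 1 := by
      rw [Set.ncard_eq_toFinset_card']
      simp
    have e2 : (Set.Iic (g * (2 * s + 1) ^ 2)).ncard = g * (2 * s + 1) ^ 2 + 1 := by
      rw [Set.ncard_eq_toFinset_card']
      simp
    rw [e1, e2]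
    refine Nat.cast_le.mpr (le_trans ?_ ht)
    rw [mul_assoc]
    exact Nat.mul_le_mul_left _ (Nat.mul_le_mul_left _ hc)

end Pool.Agent.Results.MP_b2b50d_lc.FewMultiplications
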