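import Mathlib
import Pool.Agent.Helper78_ACIT.Circuit
import Pool.Agent.Helper12_WBX.Walk
import Pool.Agent.Helper12_UO.Defs
import Pool.Agent.Helper96_SXF.ALL2

set_option autoImplicit false

/-!
# `MP_b2b50d_lc`: black-box identity test for all arithmetic formulas, in subexponential time

Arithmetic formulas with at most `r ^ 2` leaves labelled by variables, of any depth, without any
restriction on the number of occurrences of a variable, are hit by a polynomial generator with
`11 r - 1` seeds: a nonzero formula in `n` variables does not vanish at one of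
`(r ^ 2 n (5 r + 2) + 1) ^ (11 r - 1)` explicit integer points.  So the identity test for formulas of
size `s` needs `(n + s) ^ O(√s)` evaluations.

The `n` variables are divided into `R` intervals, either with at most `m` occurrences of variables or
with one variable.  For each interval `B` the formula is a polynomial in the variables of `B` and in at
most `4 m + 2` polynomials `h` in the other variables (Kalorkoti).  After the substitution of the
generator for the other variables the `h` are polynomials in the common seeds `ξ_0, ..., ξ_(T-1)`.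
There are derivations with respect to these seeds which kill the `h` and all the `m` forms
`∑ j, ξ_j ((i + 1) y) ^ j`, except one; so the formula does not vanish if these forms are substituted.
-/

namespace Pool.Agent.Results.MP_b2b50d_lc.SubexponentialFormulas

open MvPolynomial Pool.Agent.Helper78_ACIT Pool.Agent.WBX

/-- The polynomial `∑ l ≤ i, ∏ k ≤ n, k ≠ l, (c - k)`.  (At the integers `c` in `{0, ..., n}` it is a
step function of `i`: it vanishes for `i < c` and is constant and not zero for `c ≤ i ≤ n`.) -/
def step {A : Type} [CommRing A] (n i : ℕ) (c : A) : A :=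
  ∑ l ∈ Finset.range (i + 1), ∏ k ∈ (Finset.range (n + 1)).erase l, (c - (k : A))

/-- The generator with the `3 R + T` seeds `c_r`, `y_r`, `z_r` (`r < R`) and `ξ_j` (`j < T`):
`x_i = ∑ r, z_r step n i c_r + ∑ j, ξ_j ((i + 1) ∑ r, y_r step n i c_r) ^ j` for `i < n`, and `x_i = 0`
for `i ≥ n`. -/
def gen {A : Type} [CommRing A] {R T : ℕ} (n : ℕ) (c y z : Fin R → A) (ξ : Fin T → A) (i : ℕ) : A :=
  if i < n then ∑ r, z r * step n i (c r) +
    ∑ j : Fin T, ξ j * (((i : A) + 1) * ∑ r, y r * step n i (c r)) ^ (j : ℕ) else 0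

/-- The number of times the gate `j` is used by other gates. -/
def fanOut (G : List Gate) (j : ℕ) : ℕ := (G.flatMap refs).count j

/-- The number of leaves labelled by `x_v`: the sum over all gates labelled by `x_v` of the number of
times the gate is used (counted as `1` if it is not used). -/
def leaves (G : List Gate) (v : ℕ) : ℕ :=
  ∑ j ∈ Finset.range G.length, if G.getD j .zero = .var v then max 1 (fanOut G j) else 0

/-- The number of extra wires: the sum over all sums, differences and products which are used more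
than once of the number of further uses.  It is zero if and only if the circuit is a formula. -/
def extra (G : List Gate) : ℕ :=
  ∑ j ∈ Finset.range G.length, if refs (G.getD j .zero) = [] then 0 else fanOut G j - 1

/-- The polynomial over `E` in `x_0, ..., x_(n-1)` computed by the gate `j` of `G`, if the variables
`x_i`, `i ≥ n`, of the circuit are replaced by the constants `e_i ∈ E`. -/
noncomputable def gatePoly {E : Type} [Field E] (n : ℕ) (e : ℕ → E) (G : List Gate) (j : ℕ) :
    MvPolynomial ℕ E :=
  (values (fun i => if i < n then X i else C (e i)) G).getD j 0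

/-- The matrix `A + ∑ l < s, x_(ι l) u_l v_lᵀ`. -/
noncomputable def pencil {E : Type} [Field E] {N s : ℕ} (A : Matrix (Fin N) (Fin N) E)
    (ι : Fin s → ℕ) (u v : Fin s → Fin N → E) : Matrix (Fin N) (Fin N) (MvPolynomial ℕ E) :=
  Matrix.of fun a b => C (A a b) + ∑ l, X (ι l) * C (u l a * v l b)

/-- `F ∈ E[x_0, ..., x_(n-1)]` is of one of the following two kinds, for some `s` and `m` with
`2 ⌊s / (m + 1)⌋ < R`.

(a) `F = P(g_1, ..., g_q)`, where `P` is an arbitrary polynomial over `E` and `g_1, ..., g_q` are gates
of a circuit over `E` (see `gatePoly`) in which at most `s` leaves are labelled by `x_0, ..., x_(n-1)`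
and which has `k` extra wires (`k = 0` for formulas), and `5 m + 4 k + 2 q ≤ T`.

(b) `F = det(A + ∑ l < s, x_(ι l) u_l v_lᵀ)` with a square matrix `A` and vectors `u_l`, `v_l` over `E`,
of any size, and `m ^ 2 + m + 1 ≤ T`. -/
def IsSmall (E : Type) [Field E] (n R T : ℕ) (F : MvPolynomial ℕ E) : Prop :=
  ∃ s m : ℕ, 2 * (s / (m + 1)) < R ∧
    ((∃ (e : ℕ → E) (G : List Gate) (q : ℕ) (J : Fin q → ℕ) (P : MvPolynomial (Fin q) E),
      WellFormed G ∧ ∑ v ∈ Finset.range n, leaves G v ≤ s ∧ 5 * m + 4 * extra G + 2 * q ≤ T ∧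
      F = aeval (fun a => gatePoly n e G (J a)) P) ∨
    ∃ (N : ℕ) (A : Matrix (Fin N) (Fin N) E) (ι : Fin s → ℕ) (u v : Fin s → Fin N → E),
      (∀ l, ι l < n) ∧ m ^ 2 + m + 1 ≤ T ∧ F = (pencil A ι u v).det)

/-- The sum of the absolute values of the coefficients. -/
noncomputable def length (f : MvPolynomial ℕ ℤ) : ℕ := ∑ d ∈ f.support, (f.coeff d).natAbs

/-- The value of the circuit `G` modulo `p` at the point of the generator with the seeds `c`, `y`, `z`,
`ξ` in `{0, ..., N - 1}`. -/
def testValue (n p N R T : ℕ) (c y z : Fin R → Fin N) (ξ : Fin T → Fin N) (G : List Gate) :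
    ZMod p :=
  out (gen n (fun r => ((c r : ℕ) : ZMod p)) (fun r => ((y r : ℕ) : ZMod p))
    (fun r => ((z r : ℕ) : ZMod p)) (fun j => ((ξ j : ℕ) : ZMod p))) G

/-- Let `T ≥ 1`, and let `E` be a field of characteristic zero.

(1) The generator hits every nonzero product of (any number of) polynomials of the class
`IsSmall E n R T`, in particular every nonzero formula over `E` with at most `r ^ 2` leaves labelled by
`x_0, ..., x_(n-1)`, for `R = 2 r - 1`, `T = 5 r + 2` (`s = r ^ 2`, `m = r`).

(2) Let the polynomial of a circuit `G` be zero, or let it have degree at most `D` and length at most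
`2 ^ b` and divide such a product.  Then `G` computes zero if and only if its values modulo all primes
`p ≤ 64 (b + D (n + 5) T (D n T + n + R + T + 1) + 1) ^ 2` at all points of the generator with seeds in
`{0, ..., D n T}` are zero.

(3) Let `G` be a formula in the variables `x_0, ..., x_(n-1)` with at most `r ^ 2` leaves labelled by
variables, `r ≥ 1`.  Then `G` computes zero if and only if its values at the integer points of the
generator with `R = 2 r - 1`, `T = 5 r + 2` and seeds in `{0, ..., N - 1}`, `N = r ^ 2 n (5 r + 2) + 1`,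
are zero.  These are `N ^ (11 r - 1)` points, and all the values of gates at these points have
polynomially many bits. -/
theorem result :
    (∀ (E : Type) [Field E] [CharZero E] (n R T : ℕ), 1 ≤ T →
      (∀ S : List (MvPolynomial ℕ E), (∀ F ∈ S, IsSmall E n R T F) → S.prod ≠ 0 →
        ∃ (c y z : Fin R → E) (ξ : Fin T → E), eval (gen n c y z ξ) S.prod ≠ 0) ∧
      ∀ (D b : ℕ) (G : List Gate), WellFormed G →
        (poly G = 0 ∨ ((poly G).totalDegree ≤ D ∧ length (poly G) ≤ 2 ^ b ∧
          ∃ S : List (MvPolynomial ℕ E), (∀ F ∈ S, IsSmall E n R T F) ∧ S.prod ≠ 0 ∧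
            map (Int.castRingHom E) (poly G) ∣ S.prod)) →
        (G ∈ ACIT ↔ ∀ p, p.Prime →
          p ≤ 64 * (b + D * ((n + 5) * T * (D * n * T + n + R + T + 1)) + 1) ^ 2 →
          ∀ (c y z : Fin R → Fin (D * n * T + 1)) (ξ : Fin T → Fin (D * n * T + 1)),
            testValue n p (D * n * T + 1) R T c y z ξ G = 0)) ∧
    ∀ (n r N : ℕ) (G : List Gate), N = r ^ 2 * n * (5 * r + 2) + 1 → 1 ≤ r →
      WellFormed G → extra G = 0 → (∀ v, Gate.var v ∈ G → v < n) →
      ∑ v ∈ Finset.range n, leaves G v ≤ r ^ 2 →
      (G ∈ ACIT ↔ ∀ (c y z : Fin (2 * r - 1) → Fin N) (ξ : Fin (5 * r + 2) → Fin N),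
        out (gen n (fun s => ((c s : ℕ) : ℤ)) (fun s => ((y s : ℕ) : ℤ)) (fun s => ((z s : ℕ) : ℤ))
          (fun j => ((ξ j : ℕ) : ℤ))) G = 0) ∧
      Fintype.card ((Fin (2 * r - 1) → Fin N) × (Fin (2 * r - 1) → Fin N) ×
        (Fin (2 * r - 1) → Fin N) × (Fin (5 * r + 2) → Fin N)) = N ^ (11 * r - 1) ∧
      ∀ (c y z : Fin (2 * r - 1) → Fin N) (ξ : Fin (5 * r + 2) → Fin N),
        ∀ a ∈ values (gen n (fun s => ((c s : ℕ) : ℤ)) (fun s => ((y s : ℕ) : ℤ))
          (fun s => ((z s : ℕ) : ℤ)) (fun j => ((ξ j : ℕ) : ℤ))) G,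
          a.natAbs ≤ 2 ^ (2 * G.length * ((n + 5) * (5 * r + 2) * (N + n + 7 * r + 1) + 1)) := by
  refine ⟨fun E _ _ n R T hT => ?_, ?_⟩
  · have h1 : ∀ S : List (MvPolynomial ℕ E), (∀ F ∈ S, IsSmall E n R T F) → S.prod ≠ 0 →
        ∃ (c y z : Fin R → E) (ξ : Fin T → E), eval (gen n c y z ξ) S.prod ≠ 0 :=
      SXF.H96.prd E n R T (IsSmall E n R T) fun F hF hF0 => SXF.H96.hSma E n R T hT F hF hF0
    exact ⟨h1, fun D b G hG h => SXF.H96.hTs2 E n R T hT (IsSmall E n R T) h1 D b G hG h⟩
  · intro n r N G hN hr hG hext hvar hload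
    subst hN
    obtain ⟨h1, h2⟩ := SXF.H96.hFm2 n r G hG hext hvar hr hload
    refine ⟨h1, ?_, fun c y z ξ a ha => (h2 c y z ξ a ha).trans ?_⟩
    · simp only [Fintype.card_prod, Fintype.card_pi, Finset.prod_const, Finset.card_univ,
        Fintype.card_fin, ← pow_add]
      congr 1
      omega
    · refine Nat.pow_le_pow_right (by norm_num) (Nat.mul_le_mul_left _ ?_)
      refine Nat.add_le_add_right (Nat.mul_le_mul_left _ ?_) 1
      omega

end Pool.Agent.Results.MP_b2b50d_lc.SubexponentialFormulas
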